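import Pool.Agent.W91.BH.Stm

/-!
# BH-LAM: weights by a Neumann series
-/

set_option autoImplicit false

namespace Pool.Agent.W357.BH

open Finset

/-- the terms of the Neumann series -/
noncomputable def vv {ι : Type} [Fintype ι] (T : ι → ι → ℝ) : ℕ → ι → ℝ
  | 0 => fun _ => 1
  | (m + 1) => fun i => ∑ j, T i j * vv T m j

theorem lam : Pool.Agent.W91.BH.S_LAM := by
  intro ι _ w T hw hT hc
  have hnn : ∀ m i, 0 ≤ vv T m i := by
    intro m
    induction m with
    | zero => intro i; simp [vv]
    | succ m ih =>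
      intro i
      exact Finset.sum_nonneg (fun j _ => mul_nonneg (hT i j) (ih j))
  have hs : ∀ m, ∑ i, w i * vv T m i ≤ (1 / 2 : ℝ) ^ m * ∑ i, w i := by
    intro m
    induction m with
    | zero => simp [vv]
    | succ m ih =>
      have e1 : ∑ i, w i * vv T (m + 1) i = ∑ j, (∑ i, w i * T i j) * vv T m j := by
        have : ∀ i, w i * vv T (m + 1) i = ∑ j, w i * T i j * vv T m j := by
          intro i
          change w i * (∑ j, T i j * vv T m j) = _
          rw [Finset.mul_sum]
          exact Finset.sum_congr rfl (fun j _ => by ring)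
        rw [Finset.sum_congr rfl (fun i _ => this i), Finset.sum_comm]
        exact Finset.sum_congr rfl (fun j _ => by rw [Finset.sum_mul])
      rw [e1]
      calc ∑ j, (∑ i, w i * T i j) * vv T m j ≤ ∑ j, (w j / 2) * vv T m j :=
            Finset.sum_le_sum (fun j _ => mul_le_mul_of_nonneg_right (hc j) (hnn m j))
        _ = (1 / 2) * ∑ j, w j * vv T m j := by
            rw [Finset.mul_sum]
            exact Finset.sum_congr rfl (fun j _ => by ring)
        _ ≤ (1 / 2) * ((1 / 2 : ℝ) ^ m * ∑ i, w i) := by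
            exact mul_le_mul_of_nonneg_left ih (by norm_num)
        _ = (1 / 2 : ℝ) ^ (m + 1) * ∑ i, w i := by ring
  have hb : ∀ i m, vv T m i ≤ (1 / 2 : ℝ) ^ m * ((∑ i, w i) / w i) := by
    intro i m
    have h1 : w i * vv T m i ≤ ∑ i, w i * vv T m i :=
      Finset.single_le_sum (f := fun i => w i * vv T m i)
        (fun j _ => mul_nonneg (hw j).le (hnn m j)) (Finset.mem_univ i)
    have h2 := h1.trans (hs m)
    rw [← mul_div_assoc, le_div_iff₀ (hw i)]
    linarith [mul_comm (w i) (vv T m i)]
  have hgeo : Summable (fun m : ℕ => (1 / 2 : ℝ) ^ m) :=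
    summable_geometric_of_lt_one (by norm_num) (by norm_num)
  have hsum : ∀ i, Summable (fun m => vv T m i) := fun i =>
    Summable.of_nonneg_of_le (fun m => hnn m i) (hb i) (hgeo.mul_right _)
  refine ⟨fun i => ∑' m, vv T m i, ?_, ?_, ?_⟩
  · intro i
    have h1 := (hsum i).le_tsum 0 (fun m _ => hnn m i)
    simpa [vv] using h1
  · intro i
    have h1 := (hsum i).tsum_eq_zero_add
    have h2 : ∑' m, vv T (m + 1) i = ∑ j, T i j * ∑' m, vv T m j := by
      change ∑' m, (∑ j, T i j * vv T m j) = _
      rw [Summable.tsum_finsetSum (fun j _ => (hsum j).mul_left (T i j))]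
      exact Finset.sum_congr rfl (fun j _ => tsum_mul_left)
    have h3 : vv T 0 i = 1 := rfl
    dsimp only
    rw [h1, h2, h3]
  · have h1 : ∑ i, w i * ∑' m, vv T m i = ∑' m, ∑ i, w i * vv T m i := by
      rw [Summable.tsum_finsetSum (fun j _ => (hsum j).mul_left (w j))]
      exact Finset.sum_congr rfl (fun j _ => tsum_mul_left.symm)
    rw [h1]
    calc ∑' m, ∑ i, w i * vv T m i ≤ ∑' m : ℕ, (1 / 2 : ℝ) ^ m * ∑ i, w i :=
          Summable.tsum_le_tsum hs
            (summable_sum (fun j _ => (hsum j).mul_left (w j))) (hgeo.mul_right _)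
      _ = 2 * ∑ i, w i := by
          rw [tsum_mul_right, tsum_geometric_two]

end Pool.Agent.W357.BH
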